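import Pool.Agent.H65.DPNum

/-!
# MP_9ffd43_co: degree power sums of families with bounded matching number, `n ≥ k⁴ s / r`

For a family `F` of `k`-subsets of an `n`-set with at most `s` pairwise disjoint members, for all `1 ≤ r ≤ k - 1` and
all real `p ≥ 1`, the sum of the `p`-th powers of the `r`-degrees is at most the one of the family `B_S` of all the
`k`-sets meeting a fixed `s`-set `S`, with equality only for the families `B_T`, `|T| = s`, provided `r n ≥ k⁴ s`. The
bound on `n` does not depend on `p`.

Proof. Let `U` be the set of the vertices of degree more than `k s C(n-2,k-2)`. A matching of members of `F` disjoint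
from `U` can be extended greedily through the vertices of `U`; so it has at most `s - t` members, `t = |U|`. If `t = s`,
then `F ⊆ B_U`. If `t < s`, then the family `F'` of the members disjoint from `U` has at most
`k (s - t) k s C(n-2,k-2)` members. The `r`-degree of a set `R` is at most `D = C(n-r,k-r)`, and at most `a + x_R` if `R`
is disjoint from `U`, where `a = D - C(n-r-t,k-r)` is the degree of `R` in `B_U` and `x_R ≤ D - a` is the one in `F'`. By
convexity `(a + x)^p ≤ a^p + x (D^p - a^p) / (D - a)`, and `∑ x_R = C(k,r) |F'|`. This is less than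
`(C(n-t,r) - C(n-s,r)) (D - a)`, which gives the strict inequality for every `p ≥ 1` at once.
-/

set_option autoImplicit false

namespace Pool.Agent.Results.MP_9ffd43_co.LargeGroundSet

open Finset Pool.Agent.H65.DP

variable {n : ℕ}

/-- the degree of `R`: the number of the members of `F` which contain `R` -/
def deg (F : Finset (Finset (Fin n))) (R : Finset (Fin n)) : ℕ := (F.filter (fun A => R ⊆ A)).card

/-- the `r`-degree power sum `ℓ_{r,p}(F)` -/
noncomputable def powerSum (r : ℕ) (p : ℝ) (F : Finset (Finset (Fin n))) : ℝ :=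
  ∑ R ∈ powersetCard r (univ : Finset (Fin n)), (deg F R : ℝ) ^ p

/-- `B_S`: the `k`-sets which meet `S` -/
def B (k : ℕ) (S : Finset (Fin n)) : Finset (Finset (Fin n)) :=
  (powersetCard k (univ : Finset (Fin n))).filter (fun A => (A ∩ S).Nonempty)

/-- `ν(F) ≤ s`: any pairwise disjoint members of `F` are at most `s` in number -/
def MatchingNumberLE (s : ℕ) (F : Finset (Finset (Fin n))) : Prop :=
  ∀ M ⊆ F, (∀ A ∈ M, ∀ C ∈ M, A ≠ C → Disjoint A C) → M.card ≤ s

theorem count_between (k : ℕ) (R U : Finset (Fin n)) (hRU : Disjoint R U) (hk : R.card ≤ k) :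
    ((powersetCard k (univ : Finset (Fin n))).filter (fun A => R ⊆ A ∧ Disjoint A U)).card =
      (n - R.card - U.card).choose (k - R.card) := by
  have h : ((powersetCard k (univ : Finset (Fin n))).filter (fun A => R ⊆ A ∧ Disjoint A U)).card =
      (powersetCard (k - R.card) (univ \ (R ∪ U))).card := by
    refine Finset.card_bij' (fun A _ => A \ R) (fun C _ => C ∪ R) ?_ ?_ ?_ ?_
    · intro A hA
      simp only [mem_filter, mem_powersetCard, subset_univ, true_and] at hA
      obtain ⟨h1, h2, h3⟩ := hA
      rw [mem_powersetCard]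
      refine ⟨?_, ?_⟩
      · intro x hx
        rw [mem_sdiff] at hx ⊢
        refine ⟨mem_univ _, ?_⟩
        rw [mem_union]
        rintro (h | h)
        · exact hx.2 h
        · exact (Finset.disjoint_left.1 h3) hx.1 h
      · rw [card_sdiff_of_subset h2, h1]
    · intro C hC
      rw [mem_powersetCard] at hC
      obtain ⟨h1, h2⟩ := hC
      have hCR : Disjoint C R := by
        rw [Finset.disjoint_left]
        intro x hx hxR
        have := h1 hx
        rw [mem_sdiff, mem_union] at this
        exact this.2 (Or.inl hxR)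
      have hCU : Disjoint C U := by
        rw [Finset.disjoint_left]
        intro x hx hxR
        have := h1 hx
        rw [mem_sdiff, mem_union] at this
        exact this.2 (Or.inr hxR)
      simp only [mem_filter, mem_powersetCard, subset_univ, true_and]
      refine ⟨?_, subset_union_right, ?_⟩
      · rw [card_union_of_disjoint hCR, h2]; omega
      · rw [disjoint_union_left]; exact ⟨hCU, hRU⟩
    · intro A hA
      simp only [mem_filter, mem_powersetCard, subset_univ, true_and] at hA
      exact sdiff_union_of_subset hA.2.1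
    · intro C hC
      rw [mem_powersetCard] at hC
      obtain ⟨h1, h2⟩ := hC
      have hCR : Disjoint C R := by
        rw [Finset.disjoint_left]
        intro x hx hxR
        have := h1 hx
        rw [mem_sdiff, mem_union] at this
        exact this.2 (Or.inl hxR)
      change (C ∪ R) \ R = C
      rw [union_sdiff_right]
      exact sdiff_eq_self_of_disjoint hCR
  rw [h, card_powersetCard, card_univ_sdiff, card_union_of_disjoint hRU, Fintype.card_fin, Nat.sub_sub]

theorem count_above (k : ℕ) (R : Finset (Fin n)) (hk : R.card ≤ k) :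
    ((powersetCard k (univ : Finset (Fin n))).filter (fun A => R ⊆ A)).card = (n - R.card).choose (k - R.card) := by
  have h := count_between k R ∅ (disjoint_empty_right _) hk
  simpa using h

theorem deg_le (k : ℕ) (F : Finset (Finset (Fin n))) (hF : ∀ A ∈ F, A.card = k) (R : Finset (Fin n))
    (hk : R.card ≤ k) : deg F R ≤ (n - R.card).choose (k - R.card) := by
  rw [← count_above k R hk]
  apply card_le_card
  intro A hA
  rw [mem_filter] at hA ⊢
  exact ⟨mem_powersetCard.2 ⟨subset_univ _, hF A hA.1⟩, hA.2⟩

theorem deg_B_meet (k : ℕ) (S R : Finset (Fin n)) (hk : R.card ≤ k) (h : (R ∩ S).Nonempty) :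
    deg (B k S) R = (n - R.card).choose (k - R.card) := by
  rw [← count_above k R hk]
  unfold deg B
  congr 1
  ext A
  simp only [mem_filter]
  constructor
  · rintro ⟨⟨h1, _⟩, h2⟩; exact ⟨h1, h2⟩
  · rintro ⟨h1, h2⟩
    exact ⟨⟨h1, h.mono (inter_subset_inter_right h2)⟩, h2⟩

theorem deg_B_disj (k : ℕ) (S R : Finset (Fin n)) (hk : R.card ≤ k) (h : Disjoint R S) :
    deg (B k S) R + (n - R.card - S.card).choose (k - R.card) = (n - R.card).choose (k - R.card) := by
  rw [← count_above k R hk, ← count_between k R S h hk]
  unfold deg B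
  rw [← card_union_of_disjoint]
  · congr 1
    ext A
    simp only [mem_filter, mem_union]
    constructor
    · rintro (⟨⟨h1, _⟩, h2⟩ | ⟨h1, h2, _⟩)
      · exact ⟨h1, h2⟩
      · exact ⟨h1, h2⟩
    · rintro ⟨h1, h2⟩
      by_cases h3 : (A ∩ S).Nonempty
      · exact Or.inl ⟨⟨h1, h3⟩, h2⟩
      · right
        rw [Finset.not_nonempty_iff_eq_empty, ← disjoint_iff_inter_eq_empty] at h3
        exact ⟨h1, h2, h3⟩
  · rw [Finset.disjoint_left]
    intro A hA hA'
    simp only [mem_filter] at hA hA'
    have h3 := hA'.2.2
    rw [disjoint_iff_inter_eq_empty] at h3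
    have h4 := hA.1.2
    rw [h3] at h4
    exact Finset.not_nonempty_empty h4

theorem card_disj (r : ℕ) (U : Finset (Fin n)) :
    ((powersetCard r (univ : Finset (Fin n))).filter (fun R => Disjoint R U)).card = (n - U.card).choose r := by
  have h := count_between r ∅ U (disjoint_empty_left _) (by simp)
  simpa using h

theorem card_meet (r : ℕ) (U : Finset (Fin n)) :
    (((powersetCard r (univ : Finset (Fin n))).filter (fun R => ¬ Disjoint R U)).card : ℝ) =
      (n.choose r : ℝ) - (n - U.card).choose r := by
  have h := Finset.card_filter_add_card_filter_not (s := powersetCard r (univ : Finset (Fin n))) (fun R => Disjoint R U)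
  rw [card_disj, card_powersetCard, card_univ, Fintype.card_fin] at h
  have h' : ((n - U.card).choose r : ℝ) +
    (((powersetCard r (univ : Finset (Fin n))).filter (fun R => ¬ Disjoint R U)).card : ℝ) = n.choose r := by
    exact_mod_cast h
  linarith

/-- the closed form of `ℓ_{r,p}(B_S)` -/
theorem powerSum_B (k r : ℕ) (hrk : r ≤ k) (p : ℝ) (S : Finset (Fin n)) :
    powerSum r p (B k S) = ((n.choose r : ℝ) - (n - S.card).choose r) * ((n - r).choose (k - r) : ℝ) ^ p +
      ((n - S.card).choose r : ℝ) * (((n - r).choose (k - r) : ℝ) - (n - r - S.card).choose (k - r)) ^ p := by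
  unfold powerSum
  rw [← Finset.sum_filter_add_sum_filter_not (powersetCard r (univ : Finset (Fin n))) (fun R => Disjoint R S), add_comm]
  congr 1
  · rw [← card_meet r S, ← nsmul_eq_mul, ← Finset.sum_const]
    apply Finset.sum_congr rfl
    intro R hR
    rw [mem_filter, mem_powersetCard] at hR
    rw [deg_B_meet k S R (by rw [hR.1.2]; exact hrk) (by
      rw [Finset.nonempty_iff_ne_empty]; intro h; exact hR.2 (disjoint_iff_inter_eq_empty.2 h)), hR.1.2]
  · rw [← card_disj r S, ← nsmul_eq_mul, ← Finset.sum_const]
    apply Finset.sum_congr rfl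
    intro R hR
    rw [mem_filter, mem_powersetCard] at hR
    have h := deg_B_disj k S R (by rw [hR.1.2]; exact hrk) hR.2
    rw [hR.1.2] at h
    have h' : (deg (B k S) R : ℝ) + (n - r - S.card).choose (k - r) = (n - r).choose (k - r) := by exact_mod_cast h
    rw [← h']
    congr 1
    ring

theorem sum_deg (k r : ℕ) (F : Finset (Finset (Fin n))) (hF : ∀ A ∈ F, A.card = k) :
    ∑ R ∈ powersetCard r (univ : Finset (Fin n)), deg F R = k.choose r * F.card := by
  unfold deg
  have h := Finset.sum_card_bipartiteAbove_eq_sum_card_bipartiteBelow (s := powersetCard r (univ : Finset (Fin n)))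
    (t := F) (fun R A => R ⊆ A)
  unfold Finset.bipartiteAbove Finset.bipartiteBelow at h
  rw [h, Finset.sum_congr rfl (g := fun _ => k.choose r), Finset.sum_const, smul_eq_mul, mul_comm]
  intro A hA
  have : (powersetCard r (univ : Finset (Fin n))).filter (fun R => R ⊆ A) = powersetCard r A := by
    ext R
    simp only [mem_filter, mem_powersetCard, subset_univ, true_and]
    tauto
  rw [this, card_powersetCard, hF A hA]

theorem find_edge (k : ℕ) (hk : 2 ≤ k) (F : Finset (Finset (Fin n))) (hF : ∀ A ∈ F, A.card = k) (v : Fin n)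
    (W : Finset (Fin n)) (hv : v ∉ W) (h : W.card * (n - 2).choose (k - 2) < deg F {v}) :
    ∃ A ∈ F, v ∈ A ∧ Disjoint A W := by
  by_contra hcon
  push Not at hcon
  have h1 : F.filter (fun A => {v} ⊆ A) ⊆ W.biUnion (fun w => F.filter (fun A => {v, w} ⊆ A)) := by
    intro A hA
    rw [mem_filter, singleton_subset_iff] at hA
    have h2 := hcon A hA.1 hA.2
    rw [Finset.not_disjoint_iff] at h2
    obtain ⟨w, hw1, hw2⟩ := h2
    rw [mem_biUnion]
    refine ⟨w, hw2, ?_⟩
    rw [mem_filter]
    refine ⟨hA.1, ?_⟩
    intro x hx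
    rw [mem_insert, mem_singleton] at hx
    rcases hx with rfl | rfl
    · exact hA.2
    · exact hw1
  have h2 : (W.biUnion (fun w => F.filter (fun A => {v, w} ⊆ A))).card ≤ W.card * (n - 2).choose (k - 2) := by
    apply Finset.card_biUnion_le_card_mul
    intro w hw
    have hc : ({v, w} : Finset (Fin n)).card = 2 := Finset.card_pair (fun h => hv (h ▸ hw))
    have := deg_le k F hF {v, w} (by rw [hc]; exact hk)
    rw [hc] at this
    exact this
  have h3 := card_le_card h1
  unfold deg at h
  omega

/-- extension of a matching by edges through vertices of large degree -/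
theorem extend (k s : ℕ) (hk : 2 ≤ k) (F : Finset (Finset (Fin n))) (hF : ∀ A ∈ F, A.card = k)
    (U : Finset (Fin n)) : (∀ v ∈ U, k * s * (n - 2).choose (k - 2) < deg F {v}) →
    ∀ M : Finset (Finset (Fin n)), M ⊆ F → (∀ A ∈ M, ∀ C ∈ M, A ≠ C → Disjoint A C) →
    (∀ A ∈ M, Disjoint A U) → M.card + U.card ≤ s + 1 →
    ∃ M' ⊆ F, (∀ A ∈ M', ∀ C ∈ M', A ≠ C → Disjoint A C) ∧ M'.card = M.card + U.card := by
  induction U using Finset.induction_on with
  | empty =>
    intro _ M h1 h2 _ _
    exact ⟨M, h1, h2, by simp⟩
  | insert v U hv ih =>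
    intro hU M hM hPD hMU hcard
    rw [card_insert_of_notMem hv] at hcard
    have hWc : (M.biUnion id ∪ U).card ≤ k * s := by
      have h1 : (M.biUnion id).card ≤ M.card * k := by
        apply Finset.card_biUnion_le_card_mul
        intro A hA
        exact (hF A (hM hA)).le
      have h2 := card_union_le (M.biUnion id) U
      have h3 : M.card + U.card ≤ s := by omega
      calc (M.biUnion id ∪ U).card ≤ M.card * k + U.card := by omega
        _ ≤ M.card * k + U.card * k := by
            have : U.card ≤ U.card * k := Nat.le_mul_of_pos_right _ (by omega)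
            omega
        _ = k * (M.card + U.card) := by ring
        _ ≤ k * s := Nat.mul_le_mul_left _ h3
    have hvW : v ∉ M.biUnion id ∪ U := by
      rw [mem_union]
      rintro (h | h)
      · rw [mem_biUnion] at h
        obtain ⟨A, hA, hvA⟩ := h
        exact (Finset.disjoint_left.1 (hMU A hA)) hvA (mem_insert_self _ _)
      · exact hv h
    obtain ⟨A, hAF, hvA, hAW⟩ := find_edge k hk F hF v (M.biUnion id ∪ U) hvW
      (lt_of_le_of_lt (Nat.mul_le_mul_right _ hWc) (hU v (mem_insert_self _ _)))
    rw [disjoint_union_right] at hAW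
    have hAM : ∀ C ∈ M, Disjoint A C := by
      intro C hC
      exact hAW.1.mono_right (Finset.subset_biUnion_of_mem id hC)
    have hAnotM : A ∉ M := by
      intro h
      exact (Finset.disjoint_left.1 (hMU A h)) hvA (mem_insert_self _ _)
    obtain ⟨M', h1, h2, h3⟩ := ih (fun w hw => hU w (mem_insert_of_mem hw)) (insert A M)
      (by intro C hC; rw [mem_insert] at hC; rcases hC with rfl | hC
          · exact hAF
          · exact hM hC)
      (by
        intro C hC E hE hne
        rw [mem_insert] at hC hE
        rcases hC with rfl | hC <;> rcases hE with rfl | hE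
        · exact absurd rfl hne
        · exact hAM E hE
        · exact (hAM C hC).symm
        · exact hPD C hC E hE hne)
      (by
        intro C hC
        rw [mem_insert] at hC
        rcases hC with rfl | hC
        · exact hAW.2
        · exact (hMU C hC).mono_right (subset_insert _ _))
      (by rw [card_insert_of_notMem hAnotM]; omega)
    refine ⟨M', h1, h2, ?_⟩
    rw [h3, card_insert_of_notMem hAnotM, card_insert_of_notMem hv]
    ring

/-- the vertices of large degree -/
def heavy (k s : ℕ) (F : Finset (Finset (Fin n))) : Finset (Fin n) :=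
  univ.filter (fun v => k * s * (n - 2).choose (k - 2) < deg F {v})

theorem matching_heavy (k s : ℕ) (hk : 2 ≤ k) (F : Finset (Finset (Fin n))) (hF : ∀ A ∈ F, A.card = k)
    (hm : MatchingNumberLE s F) (M : Finset (Finset (Fin n))) (hM : M ⊆ F)
    (hPD : ∀ A ∈ M, ∀ C ∈ M, A ≠ C → Disjoint A C) (hMU : ∀ A ∈ M, Disjoint A (heavy k s F)) :
    M.card + (heavy k s F).card ≤ s := by
  by_contra hcon
  push Not at hcon
  have hMs := hm M hM hPD
  obtain ⟨U0, hU0, hU0c⟩ := Finset.exists_subset_card_eq (s := heavy k s F) (n := s + 1 - M.card) (by omega)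
  obtain ⟨M', h1, h2, h3⟩ := extend k s hk F hF U0
    (fun v hv => by
      have := hU0 hv
      unfold heavy at this
      rw [mem_filter] at this
      exact this.2) M hM hPD (fun A hA => (hMU A hA).mono_right hU0) (by omega)
  have := hm M' h1 h2
  omega

theorem rest_card (k s : ℕ) (hk : 2 ≤ k) (F : Finset (Finset (Fin n))) (hF : ∀ A ∈ F, A.card = k)
    (hm : MatchingNumberLE s F) :
    (F.filter (fun A => Disjoint A (heavy k s F))).card ≤
      k * (s - (heavy k s F).card) * (k * s * (n - 2).choose (k - 2)) := by
  classical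
  set U := heavy k s F with hU
  set F' := F.filter (fun A => Disjoint A U) with hF'
  have hne : (F'.powerset.filter (fun M => ∀ A ∈ M, ∀ C ∈ M, A ≠ C → Disjoint A C)).Nonempty :=
    ⟨∅, by simp⟩
  obtain ⟨M, hM, hmax⟩ := Finset.exists_max_image _ Finset.card hne
  rw [mem_filter, mem_powerset] at hM
  obtain ⟨hMF, hPD⟩ := hM
  have hMF2 : M ⊆ F := hMF.trans (filter_subset _ _)
  have hMU : ∀ A ∈ M, Disjoint A U := fun A hA => (mem_filter.1 (hMF hA)).2
  have hcard := matching_heavy k s hk F hF hm M hMF2 hPD hMU
  rw [← hU] at hcard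
  have hmeet : ∀ A ∈ F', ∃ v ∈ M.biUnion id, v ∈ A := by
    intro A hA
    by_contra hcon
    push Not at hcon
    have hAk : A.card = k := hF A (mem_filter.1 hA).1
    have hAne : A.Nonempty := by rw [← card_pos]; omega
    have hAM : A ∉ M := by
      intro h
      obtain ⟨x, hx⟩ := hAne
      exact hcon x (mem_biUnion.2 ⟨A, h, hx⟩) hx
    have hdis : ∀ C ∈ M, Disjoint A C := by
      intro C hC
      rw [Finset.disjoint_left]
      intro x hxA hxC
      exact hcon x (mem_biUnion.2 ⟨C, hC, hxC⟩) hxA
    have h1 := hmax (insert A M) (by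
      rw [mem_filter, mem_powerset]
      refine ⟨?_, ?_⟩
      · intro C hC
        rw [mem_insert] at hC
        rcases hC with rfl | hC
        · exact hA
        · exact hMF hC
      · intro C hC E hE hne
        rw [mem_insert] at hC hE
        rcases hC with rfl | hC <;> rcases hE with rfl | hE
        · exact absurd rfl hne
        · exact hdis E hE
        · exact (hdis C hC).symm
        · exact hPD C hC E hE hne)
    rw [card_insert_of_notMem hAM] at h1
    omega
  have hsub : F' ⊆ (M.biUnion id).biUnion (fun v => F'.filter (fun A => {v} ⊆ A)) := by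
    intro A hA
    obtain ⟨v, hv, hvA⟩ := hmeet A hA
    exact mem_biUnion.2 ⟨v, hv, mem_filter.2 ⟨hA, singleton_subset_iff.2 hvA⟩⟩
  have h1 : ((M.biUnion id).biUnion (fun v => F'.filter (fun A => {v} ⊆ A))).card ≤
      (M.biUnion id).card * (k * s * (n - 2).choose (k - 2)) := by
    apply Finset.card_biUnion_le_card_mul
    intro v hv
    rw [mem_biUnion] at hv
    obtain ⟨A, hA, hvA⟩ := hv
    have hvU : v ∉ U := (Finset.disjoint_left.1 (hMU A hA)) hvA
    have h2 : deg F {v} ≤ k * s * (n - 2).choose (k - 2) := by
      by_contra hcon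
      push Not at hcon
      apply hvU
      rw [hU]
      unfold heavy
      exact mem_filter.2 ⟨mem_univ _, hcon⟩
    refine le_trans (card_le_card ?_) h2
    intro C hC
    rw [mem_filter] at hC ⊢
    exact ⟨(mem_filter.1 hC.1).1, hC.2⟩
  have h2 : (M.biUnion id).card ≤ M.card * k := by
    apply Finset.card_biUnion_le_card_mul
    intro A hA
    exact (hF A (hMF2 hA)).le
  calc F'.card ≤ _ := card_le_card hsub
    _ ≤ (M.biUnion id).card * (k * s * (n - 2).choose (k - 2)) := h1
    _ ≤ (M.card * k) * (k * s * (n - 2).choose (k - 2)) := Nat.mul_le_mul_right _ h2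
    _ ≤ (k * (s - U.card)) * (k * s * (n - 2).choose (k - 2)) := by
        apply Nat.mul_le_mul_right
        rw [mul_comm]
        exact Nat.mul_le_mul_left _ (by omega)

/-- for a uniform subfamily of `B_U` -/
theorem sub_case (k r : ℕ) (hrk : r ≤ k) (p : ℝ) (hp : 1 ≤ p) (F : Finset (Finset (Fin n)))
    (hF : ∀ A ∈ F, A.card = k) (U : Finset (Fin n)) (hFU : ∀ A ∈ F, ¬ Disjoint A U) :
    powerSum r p F ≤ powerSum r p (B k U) ∧ (powerSum r p F = powerSum r p (B k U) → F = B k U) := by
  have hsub : F ⊆ B k U := by
    intro A hA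
    unfold B
    rw [mem_filter, mem_powersetCard]
    refine ⟨⟨subset_univ _, hF A hA⟩, ?_⟩
    rw [Finset.nonempty_iff_ne_empty]
    intro h
    exact hFU A hA (disjoint_iff_inter_eq_empty.2 h)
  have hdeg : ∀ R, deg F R ≤ deg (B k U) R := fun R => card_le_card (filter_subset_filter _ hsub)
  have hp0 : 0 ≤ p := by linarith
  have hle : ∀ R ∈ powersetCard r (univ : Finset (Fin n)), (deg F R : ℝ) ^ p ≤ (deg (B k U) R : ℝ) ^ p :=
    fun R _ => Real.rpow_le_rpow (by positivity) (by exact_mod_cast hdeg R) hp0
  refine ⟨Finset.sum_le_sum hle, ?_⟩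
  intro heq
  by_contra hne
  have hss : F ⊂ B k U := lt_of_le_of_ne hsub hne
  obtain ⟨A, hAB, hAF⟩ := Finset.exists_of_ssubset hss
  have hAk : A.card = k := (mem_powersetCard.1 (mem_filter.1 hAB).1).2
  obtain ⟨R, hRA, hRr⟩ := Finset.exists_subset_card_eq (s := A) (n := r) (by omega)
  have hlt : deg F R < deg (B k U) R := by
    apply card_lt_card
    rw [Finset.ssubset_iff_of_subset (filter_subset_filter _ hsub)]
    exact ⟨A, mem_filter.2 ⟨hAB, hRA⟩, fun h => hAF (mem_filter.1 h).1⟩
  have := Finset.sum_lt_sum hle ⟨R, mem_powersetCard.2 ⟨subset_univ _, hRr⟩,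
    Real.rpow_lt_rpow (by positivity) (by exact_mod_cast hlt) (by linarith)⟩
  exact absurd heq (ne_of_lt this)

theorem strict_case (k s r : ℕ) (hr : 1 ≤ r) (hrk : r < k) (hn : k ^ 4 * s ≤ r * n) (p : ℝ) (hp : 1 ≤ p)
    (F : Finset (Finset (Fin n))) (hF : ∀ A ∈ F, A.card = k) (hm : MatchingNumberLE s F)
    (ht : (heavy k s F).card < s) (S : Finset (Fin n)) (hS : S.card = s) :
    powerSum r p F < powerSum r p (B k S) := by
  have hk : 2 ≤ k := by omega
  set U := heavy k s F with hU
  set F' := F.filter (fun A => Disjoint A U) with hF'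
  have hF'k : ∀ A ∈ F', A.card = k := fun A hA => hF A (mem_filter.1 hA).1
  have hrest := rest_card k s hk F hF hm
  rw [← hU, ← hF'] at hrest
  have hkey := key_ineq k s r n U.card hr hrk hn ht
  set t := U.card with hts
  -- numbers
  set D : ℝ := ((n - r).choose (k - r) : ℝ) with hD
  set E : ℝ := ((n - r - t).choose (k - r) : ℝ) with hE
  have hEpos : 0 < E := by
    have h1 : 0 < ((n - t).choose r - (n - s).choose r) * (n - r - t).choose (k - r) := lt_of_le_of_lt (Nat.zero_le _) hkey
    have h2 : 0 < (n - r - t).choose (k - r) := Nat.pos_of_mul_pos_left h1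
    rw [hE]; exact_mod_cast h2
  have hED : E ≤ D := by
    rw [hE, hD]
    exact_mod_cast Nat.choose_le_choose (k - r) (by omega)
  set a : ℝ := D - E with ha
  have ha0 : 0 ≤ a := by rw [ha]; linarith
  have haD : a < D := by rw [ha]; linarith
  have hDa : D - a = E := by rw [ha]; ring
  set c : ℝ := (D ^ p - a ^ p) / (D - a) with hc
  have hpow : a ^ p < D ^ p := Real.rpow_lt_rpow ha0 haD (by linarith)
  have hcpos : 0 < c := div_pos (by linarith) (by linarith)
  -- upper bound
  have hupper : powerSum r p F ≤ ((n.choose r : ℝ) - (n - t).choose r) * D ^ p + ((n - t).choose r : ℝ) * a ^ p +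
      c * (k.choose r * F'.card) := by
    unfold powerSum
    rw [← Finset.sum_filter_add_sum_filter_not (powersetCard r (univ : Finset (Fin n))) (fun R => Disjoint R U)]
    have h1 : ∑ R ∈ (powersetCard r (univ : Finset (Fin n))).filter (fun R => ¬ Disjoint R U), (deg F R : ℝ) ^ p ≤
        ((n.choose r : ℝ) - (n - t).choose r) * D ^ p := by
      rw [hts, ← card_meet r U, ← nsmul_eq_mul, ← Finset.sum_const]
      apply Finset.sum_le_sum
      intro R hR
      rw [mem_filter, mem_powersetCard] at hR
      apply Real.rpow_le_rpow (by positivity) _ (by linarith)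
      have := deg_le k F hF R (by omega)
      rw [hR.1.2] at this
      rw [hD]
      exact_mod_cast this
    have h2 : ∑ R ∈ (powersetCard r (univ : Finset (Fin n))).filter (fun R => Disjoint R U), (deg F R : ℝ) ^ p ≤
        ∑ R ∈ (powersetCard r (univ : Finset (Fin n))).filter (fun R => Disjoint R U), (a ^ p + (deg F' R : ℝ) * c) := by
      apply Finset.sum_le_sum
      intro R hR
      rw [mem_filter, mem_powersetCard] at hR
      have hRk : R.card ≤ k := by omega
      have h3 : deg F R ≤ deg (B k U) R + deg F' R := by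
        unfold deg
        refine le_trans (card_le_card ?_) (card_union_le _ _)
        intro A hA
        rw [mem_filter] at hA
        rw [mem_union, mem_filter, mem_filter]
        by_cases h : Disjoint A U
        · right; exact ⟨mem_filter.2 ⟨hA.1, h⟩, hA.2⟩
        · left
          refine ⟨?_, hA.2⟩
          unfold B
          rw [mem_filter, mem_powersetCard]
          refine ⟨⟨subset_univ _, hF A hA.1⟩, ?_⟩
          rw [Finset.nonempty_iff_ne_empty]
          intro h'
          exact h (disjoint_iff_inter_eq_empty.2 h')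
      have h4 := deg_B_disj k U R hRk hR.2
      rw [hR.1.2] at h4
      have h4' : (deg (B k U) R : ℝ) = a := by
        have : (deg (B k U) R : ℝ) + E = D := by rw [hE, hD, hts]; exact_mod_cast h4
        rw [ha]; linarith
      have h5 : deg F' R ≤ (n - r - t).choose (k - r) := by
        have h6 := count_between k R U hR.2 hRk
        rw [hR.1.2] at h6
        rw [hts, ← h6]
        apply card_le_card
        intro A hA
        rw [mem_filter] at hA ⊢
        exact ⟨mem_powersetCard.2 ⟨subset_univ _, hF'k A hA.1⟩, hA.2, (mem_filter.1 hA.1).2⟩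
      have h5' : (deg F' R : ℝ) ≤ D - a := by rw [hDa, hE]; exact_mod_cast h5
      calc (deg F R : ℝ) ^ p ≤ (a + deg F' R) ^ p := by
            apply Real.rpow_le_rpow (by positivity) _ (by linarith)
            rw [← h4']; exact_mod_cast h3
        _ ≤ a ^ p + (deg F' R : ℝ) * c := chord a D (deg F' R) p ha0 haD (by positivity) h5' hp
    have h3 : ∑ R ∈ (powersetCard r (univ : Finset (Fin n))).filter (fun R => Disjoint R U), (a ^ p + (deg F' R : ℝ) * c) ≤
        ((n - t).choose r : ℝ) * a ^ p + c * (k.choose r * F'.card) := by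
      rw [Finset.sum_add_distrib, Finset.sum_const, card_disj, nsmul_eq_mul, ← Finset.sum_mul]
      have h4 : ∑ R ∈ (powersetCard r (univ : Finset (Fin n))).filter (fun R => Disjoint R U), (deg F' R : ℝ) ≤
          ∑ R ∈ powersetCard r (univ : Finset (Fin n)), (deg F' R : ℝ) :=
        Finset.sum_le_sum_of_subset_of_nonneg (filter_subset _ _) (fun _ _ _ => by positivity)
      have h5 : ∑ R ∈ powersetCard r (univ : Finset (Fin n)), (deg F' R : ℝ) = k.choose r * F'.card := by
        exact_mod_cast sum_deg k r F' hF'k
      rw [h5] at h4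
      have h6 := mul_le_mul_of_nonneg_right h4 hcpos.le
      rw [← hts]
      linarith
    linarith
  -- the key inequality
  have hstep : c * (k.choose r * F'.card) < (D ^ p - a ^ p) * ((n - t).choose r - (n - s).choose r) := by
    have h1 : ((k.choose r : ℝ) * F'.card) < (((n - t).choose r : ℝ) - (n - s).choose r) * E := by
      have h2 : k.choose r * F'.card < ((n - t).choose r - (n - s).choose r) * (n - r - t).choose (k - r) :=
        lt_of_le_of_lt (Nat.mul_le_mul_left _ hrest) hkey
      have h3 : (n - s).choose r ≤ (n - t).choose r := Nat.choose_le_choose _ (by omega)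
      have h4 : (((n - t).choose r - (n - s).choose r : ℕ) : ℝ) = ((n - t).choose r : ℝ) - (n - s).choose r := by
        rw [Nat.cast_sub h3]
      rw [← h4, hE]
      exact_mod_cast h2
    have h5 := mul_lt_mul_of_pos_left h1 hcpos
    have h6 : c * ((((n - t).choose r : ℝ) - (n - s).choose r) * E) =
        (D ^ p - a ^ p) * ((n - t).choose r - (n - s).choose r) := by
      rw [hc, hDa]; field_simp
    rw [← h6]; exact h5
  -- the lower bound for B_S
  rw [powerSum_B k r hrk.le p S, hS]
  have haS : a ^ p ≤ (((n - r).choose (k - r) : ℝ) - (n - r - s).choose (k - r)) ^ p := by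
    apply Real.rpow_le_rpow ha0 _ (by linarith)
    rw [ha, hD, hE]
    have : ((n - r - s).choose (k - r) : ℝ) ≤ (n - r - t).choose (k - r) := by
      exact_mod_cast Nat.choose_le_choose (k - r) (by omega)
    linarith
  have h7 := mul_le_mul_of_nonneg_left haS (show (0 : ℝ) ≤ ((n - s).choose r : ℝ) by positivity)
  rw [← hD] at h7 ⊢
  nlinarith

/-- **Theorem.** Let `1 ≤ r ≤ k - 1`, `r n ≥ k⁴ s` and let `p ≥ 1` be real. If `F` is a family of `k`-subsets of an
`n`-set with `ν(F) ≤ s`, then `ℓ_{r,p}(F) ≤ ℓ_{r,p}(B_S)` for `|S| = s`, with equality only if `F = B_T` for a set `T`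
with `s` elements. -/
theorem result (k s r n : ℕ) (hr : 1 ≤ r) (hrk : r < k) (hn : k ^ 4 * s ≤ r * n) (p : ℝ) (hp : 1 ≤ p)
    (F : Finset (Finset (Fin n))) (hF : ∀ A ∈ F, A.card = k) (hm : MatchingNumberLE s F)
    (S : Finset (Fin n)) (hS : S.card = s) :
    powerSum r p F ≤ powerSum r p (B k S) ∧
      (powerSum r p F = powerSum r p (B k S) → ∃ T : Finset (Fin n), T.card = s ∧ F = B k T) := by
  have hk : 2 ≤ k := by omega
  have h0 := matching_heavy k s hk F hF hm ∅ (empty_subset _) (by simp) (by simp)
  rw [card_empty, zero_add] at h0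
  rcases lt_or_eq_of_le h0 with h | h
  · have := strict_case k s r hr hrk hn p hp F hF hm h S hS
    exact ⟨this.le, fun h' => absurd h' (ne_of_lt this)⟩
  · have hFU : ∀ A ∈ F, ¬ Disjoint A (heavy k s F) := by
      intro A hA hdis
      have := matching_heavy k s hk F hF hm {A} (by simpa using hA)
        (by intro C hC E hE hne; rw [mem_singleton] at hC hE; exact absurd (hC.trans hE.symm) hne)
        (by intro C hC; rw [mem_singleton] at hC; rw [hC]; exact hdis)
      rw [card_singleton] at this
      omega
    obtain ⟨h1, h2⟩ := sub_case k r hrk.le p hp F hF (heavy k s F) hFU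
    have h3 : powerSum r p (B k (heavy k s F)) = powerSum r p (B k S) := by
      rw [powerSum_B k r hrk.le p, powerSum_B k r hrk.le p, h, hS]
    rw [← h3]
    exact ⟨h1, fun h' => ⟨heavy k s F, h, h2 h'⟩⟩

end Pool.Agent.Results.MP_9ffd43_co.LargeGroundSet
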